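import Pool.Agent.MP_a88b1d_nt.H93.All
import Pool.Agent.MP_a88b1d_nt.H42.Bridge
import Pool.Agent.MP_a88b1d_nt.H11.Maxo
import Pool.Agent.MP_a88b1d_nt.H48.Ram

open Polynomial Quaternion Pool.Agent.MP_a88b1d_nt Pool.Agent.MP_a88b1d_nt.St2

namespace Pool.Agent.Results.MP_a88b1d_nt.KernelFalsePic

/-- For `F_2[T]` and the primes `p = T^2 + T + 1`, `q = T^6 + T^5 + T^3 + T^2 + 1`: every isogeny
from the new quotient of `J_0(p q)` to `J^(p q)` has a kernel of order divisible by 3, so none has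
kernel `Z/65 × Z/5`.  The Jacobians are groups of degree zero divisor classes. -/
theorem result : ∃ p q : (ZMod 2)[X], p = X ^ 2 + X + 1 ∧ q = X ^ 6 + X ^ 5 + X ^ 3 + X ^ 2 + 1 ∧
    Irreducible p ∧ p.natDegree = 2 ∧ Irreducible q ∧ q.natDegree = 6 ∧
    (∀ v : IsDedekindDomain.HeightOneSpectrum (ZMod 2)[X],
      (∀ x : ℍ[v.adicCompletion (RatFunc (ZMod 2)), algebraMap (ZMod 2)[X] _ X, 1,
        algebraMap (ZMod 2)[X] _ (p * q)], x ≠ 0 → IsUnit x) ↔ p * q ∈ v.asIdeal) ∧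
    (∀ S : Subalgebra (ZMod 2)[X] ℍ[RatFunc (ZMod 2), algebraMap (ZMod 2)[X] _ X, 1,
        algebraMap (ZMod 2)[X] _ (p * q)],
      S.toSubmodule.FG → (∀ y, Intg y → y ∈ S) → ∀ y ∈ S, Intg y) ∧
    (∃ (C : Type) (_ : NontriviallyNormedField C) (_ : IsUltrametricDist C) (_ : CompleteSpace C)
      (_ : IsAlgClosed C) (_ : Algebra (ZMod 2) C) (T : C), 1 < ‖T‖ ∧
        Dense {x : C | IsAlgebraic (Finf T) x}) ∧
    ∀ (C : Type) [NontriviallyNormedField C] [IsUltrametricDist C] [CompleteSpace C]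
      [IsAlgClosed C] [Algebra (ZMod 2) C] [DecidableEq C] (T : C), 1 < ‖T‖ →
      Dense {x : C | IsAlgebraic (Finf T) x} →
      KernelFails T (p * q) ℍ[(ZMod 2)[X], X, 1, p * q] := by
  have hi : H42.IRR := H85.irr
  exact ⟨H42.pp, H42.qq, rfl, rfl, hi.1, hi.2.1, hi.2.2.1, hi.2.2.2, H48.ram hi,
    fun S h1 h2 y hy => (H42.intg_iff y).2
      (H11.maxo hi S h1 (fun x hx => h2 x ((H42.intg_iff x).2 hx)) y hy),
    RBAER.row2, fun C _ _ _ _ _ _ T hT hd => P2.kernelFails T hT hd⟩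

end Pool.Agent.Results.MP_a88b1d_nt.KernelFalsePic
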